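import Pool.Agent.Helper84.KL.V

set_option autoImplicit false
set_option linter.unusedSectionVars false

/-!
Project KL (MP_0b9e0b_ag), module KL-8: reduction to vertical points, conclusion.
-/

namespace Pool.Agent.Helper84.KL

open Pool.Agent.Helper16 Pool.Agent.HC Pool.Agent.Helper1.KL

variable {k : Type} [Field k] {p : ℕ} [Fact p.Prime] [CharP k p] {n : ℕ} {b : Fin n → k} {r : ℕ}

section sums

variable {N : Type} [Field N] [Algebra k N] [Algebra (RatFunc k) N]
  [IsScalarTower k (RatFunc k) N]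

theorem sumX_C {N : Type} [Field N] [CharP N p] {I : Finset (Fin n)} {ρ : Fin n → ZMod p} (hρ : ∀ i ∉ I, ρ i = 0)
    (z : Fin n ⊕ Fin n → Option N) :
    ∑ i ∈ I, ((ρ i).cast : RatFunc N) * RatFunc.C (xc z i) = RatFunc.C (Xc ρ z) := by
  have hcR : CharP (RatFunc N) p := charP_ratFunc (k := N) (p := p)
  unfold Xc
  rw [map_sum]
  refine Finset.sum_subset_zero_on_sdiff (Finset.subset_univ _) (fun i hi => ?_) fun i _ => ?_
  · rw [hρ i (Finset.mem_sdiff.1 hi).2, ZMod.cast_zero, zero_mul, map_zero]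
  · rw [map_mul, hom_cast]

theorem sumB_C {I : Finset (Fin n)} {ρ : Fin n → ZMod p} (hρ : ∀ i ∉ I, ρ i = 0)
    (z : Fin n ⊕ Fin n → Option N) {κ : RatFunc k →+* RatFunc N}
    (hκC : ∀ a : k, κ (RatFunc.C a) = RatFunc.C (algebraMap k N a)) :
    ∑ i ∈ I, ((ρ i).cast : RatFunc N) * κ (RatFunc.C (b i)) * (RatFunc.C (xc z i))⁻¹ =
      RatFunc.C (Bc b ρ z) := by
  have hcN := charP_alg (k := k) (p := p) N
  have hcR : CharP (RatFunc N) p := charP_ratFunc (k := N) (p := p)
  unfold Bc
  rw [map_sum]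
  refine Finset.sum_subset_zero_on_sdiff (Finset.subset_univ _) (fun i hi => ?_) fun i _ => ?_
  · rw [hρ i (Finset.mem_sdiff.1 hi).2, ZMod.cast_zero, zero_mul, zero_mul, map_zero]
  · have h2 : algebraMap (RatFunc k) N (RatFunc.C (b i)) = algebraMap k N (b i) := by
      rw [IsScalarTower.algebraMap_apply k (RatFunc k) N]
      rfl
    rw [map_mul, map_mul, hom_cast, map_inv₀, hκC, h2]

end sums

section step

variable {N : Type} [Field N] [Algebra k N] [Algebra (RatFunc k) N]
  [IsScalarTower k (RatFunc k) N]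

/-- The reduction for a point over its own field. -/
theorem step (hb : ∀ i, b i ≠ 0) (hHom : ModHom k p b r) {I : Finset (Fin n)}
    {z : Fin n ⊕ Fin n → Option N} {ρ : Fin n → ZMod p} (hE : Algebra.EssFiniteType (RatFunc k) N)
    (hN : Algebra.trdeg (RatFunc k) N = r) (hz : Good p b r I z) (hρ : ∀ i ∉ I, ρ i = 0)
    (hρ0 : ρ ≠ 0) (W : Submodule ℚ (QX p b r)) (hG : GG p b r I.card ≤ W)
    (hW : ∀ (R : Type) [Field R] [Algebra k R] [Algebra (RatFunc k) R]
      [IsScalarTower k (RatFunc k) R] (y : Fin n ⊕ Fin n → Option R), Good p b r I y →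
      Vert k r y → (Xc ρ z = 0 → Xc ρ y = 0) → (Bc b ρ z = 0 → Bc b ρ y = 0) →
      SS p b r ρ y ∈ W) :
    SS p b r ρ z ∈ W := by
  have hp := (Fact.out : p.Prime)
  have hcN := charP_alg (k := k) (p := p) N
  have hcR : CharP (RatFunc N) p := charP_ratFunc (k := N) (p := p)
  by_cases hv : Vert k r z
  · exact hW N z hz hv id id
  have has := as_eq hz.mem hb ρ
  -- the general form of the homotopy
  have main : ∀ (P E : Polynomial N), 0 < P.natDegree →
      P.eval 0 = 0 → E.eval 0 = 0 →
      (E ^ p - E = P * Polynomial.C (Xc ρ z)) →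
      (∀ (M : Type) [Field M] [Algebra (RatFunc k) M] (j : RatFunc N →+* M)
        (v : Place (RatFunc k) M), (∀ a : N, a ≠ 0 → v.val (j (RatFunc.C a)) = 1) →
        1 < v.val (j RatFunc.X) → 1 < v.val (j (algebraMap (Polynomial N) (RatFunc N) P))) →
      (∀ (M : Type) [Field M] [Algebra (RatFunc k) M] (j : RatFunc N →+* M)
        (v : Place (RatFunc k) M), (∀ a : N, a ≠ 0 → v.val (j (RatFunc.C a)) = 1) →
        v.val (j RatFunc.X) < 1 → v.val (j (algebraMap (Polynomial N) (RatFunc N) P)) < 1 ∧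
          v.val (j (algebraMap (Polynomial N) (RatFunc N) E)) < 1) →
      SS p b r ρ z ∈ W := by
    intro P E hP hP0 hE0 hEP hpole hzero
    have hdeg : 0 < (Polynomial.C (algebraMap (RatFunc k) N RatFunc.X) + P).natDegree := by
      rw [Polynomial.natDegree_C_add]
      exact hP
    obtain ⟨κ, hκC, hκX⟩ := exists_kappa (k := k) _ hdeg
    have hκX' : κ RatFunc.X = RatFunc.C (algebraMap (RatFunc k) N RatFunc.X) +
        algebraMap (Polynomial N) (RatFunc N) P := by
      rw [hκX, map_add, RatFunc.algebraMap_C]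
    refine hHom N I z ρ κ (fun i => RatFunc.C (xc z i))
      (RatFunc.C (ec ρ z) + algebraMap (Polynomial N) (RatFunc N) E) W hE hN hz hρ
      (fun h => absurd h hρ0) hκC ?_ ?_ ?_ ?_ ?_
    · rw [hκX]
      refine at0_poly _ _ ?_
      rw [Polynomial.eval_add, Polynomial.eval_C, hP0, add_zero]
    · intro i hi
      refine ⟨?_, at0_C _⟩
      rw [Ne, map_eq_zero]
      exact (hz.of_mem hb hi).2.2.1
    · rw [← RatFunc.algebraMap_C, ← map_add]
      refine at0_poly _ _ ?_
      rw [Polynomial.eval_add, Polynomial.eval_C, hE0, add_zero]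
    · rw [sumX_C hρ z, sumB_C hρ z hκC, add_pow_char, hκX', add_mul]
      have h1 : algebraMap (Polynomial N) (RatFunc N) P * RatFunc.C (Xc ρ z) =
          algebraMap (Polynomial N) (RatFunc N) E ^ p -
            algebraMap (Polynomial N) (RatFunc N) E := by
        rw [← RatFunc.algebraMap_C, ← map_mul, ← hEP, map_sub, map_pow]
      have h2 : RatFunc.C (ec ρ z) ^ p - RatFunc.C (ec ρ z) =
          RatFunc.C (algebraMap (RatFunc k) N RatFunc.X) * RatFunc.C (Xc ρ z) +
            RatFunc.C (Bc b ρ z) := by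
        rw [← map_pow, ← map_sub, has, map_add, map_mul]
      rw [h1]
      linear_combination h2
    · intro M _ _ j z' v hj _ _ _ _ hI hinf hec hord hX htr
      exact core hb _ (algebraMap (Polynomial N) (RatFunc N) E) κ hκC hκX' hN hz hρ hv j hj z' v
        (fun i hi => (hI i hi).1) hinf hec hord hX htr (hpole M j v) (hzero M j v) hG hW
  by_cases hX : Xc ρ z = 0
  · refine main Polynomial.X 0 ?_ ?_ ?_ ?_ ?_ ?_
    · rw [Polynomial.natDegree_X]
      exact Nat.one_pos
    · simp
    · simp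
    · rw [hX, map_zero, mul_zero, zero_pow hp.ne_zero, sub_zero]
    · intro M _ _ j v _ h
      rw [RatFunc.algebraMap_X]
      exact h
    · intro M _ _ j v _ h
      rw [RatFunc.algebraMap_X]
      refine ⟨h, ?_⟩
      rw [map_zero, map_zero, map_zero]
      exact zero_lt_one
  · have hc0 : (Xc ρ z)⁻¹ ≠ 0 := inv_ne_zero hX
    have hmap : algebraMap (Polynomial N) (RatFunc N)
        (Polynomial.C (Xc ρ z)⁻¹ * (Polynomial.X ^ p - Polynomial.X)) =
        RatFunc.C (Xc ρ z)⁻¹ * (RatFunc.X ^ p - RatFunc.X) := by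
      rw [map_mul, map_sub, map_pow, RatFunc.algebraMap_C, RatFunc.algebraMap_X]
    refine main (Polynomial.C (Xc ρ z)⁻¹ * (Polynomial.X ^ p - Polynomial.X)) Polynomial.X
      ?_ ?_ ?_ ?_ ?_ ?_
    · rw [Polynomial.natDegree_C_mul hc0]
      have h1 : (Polynomial.X ^ p - Polynomial.X : Polynomial N).natDegree = p := by
        rw [Polynomial.natDegree_sub_eq_left_of_natDegree_lt, Polynomial.natDegree_X_pow]
        rw [Polynomial.natDegree_X, Polynomial.natDegree_X_pow]
        exact hp.one_lt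
      rw [h1]
      exact hp.pos
    · simp [hp.ne_zero]
    · simp
    · have h1 : (Polynomial.C (Xc ρ z)⁻¹ * Polynomial.C (Xc ρ z) : Polynomial N) = 1 := by
        rw [← Polynomial.C_mul, inv_mul_cancel₀ hX, Polynomial.C_1]
      linear_combination (-(Polynomial.X ^ p - Polynomial.X) : Polynomial N) * h1
    · intro M _ _ j v h1 h2
      rw [hmap, map_mul, map_mul, h1 _ hc0, one_mul, map_sub, map_pow]
      have h3 : v.val (j RatFunc.X) < v.val (j RatFunc.X ^ p) := by
        rw [map_pow]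
        exact lt_self_pow₀ h2 hp.one_lt
      rw [v.val.map_sub_eq_of_lt_left h3]
      exact h2.trans h3
    · intro M _ _ j v h1 h2
      rw [hmap, map_mul, map_mul, h1 _ hc0, one_mul, map_sub, map_pow, RatFunc.algebraMap_X]
      refine ⟨?_, h2⟩
      refine (v.val.map_sub _ _).trans_lt (max_lt ?_ h2)
      rw [map_pow]
      exact pow_lt_one₀ zero_le h2 hp.ne_zero

end step

/-- KL-8. -/
theorem modV (hb : ∀ i, b i ≠ 0) (hHom : ModHom k p b r) : ModV k p b r := by
  intro N _ _ _ _ I z ρ hz hρ hρ0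
  have key1 : ∀ (W : Submodule ℚ (QX p b r)), GG p b r I.card ≤ W →
      (∀ (R : Type) [Field R] [Algebra k R] [Algebra (RatFunc k) R]
        [IsScalarTower k (RatFunc k) R] (y : Fin n ⊕ Fin n → Option R), Good p b r I y →
        Vert k r y → (Xc ρ z = 0 → Xc ρ y = 0) → (Bc b ρ z = 0 → Bc b ρ y = 0) →
        SS p b r ρ y ∈ W) → SS p b r ρ z ∈ W := by
    intro W hG hW
    have h1 := SH_restr (k := k) (p := p) (b := b) (r := r) (perp ρ) z
    have h2 : Xc ρ z = ((Xc ρ (restr (RatFunc k) z) : fld (RatFunc k) z) : N) := by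
      conv_lhs => rw [← restr_map (F := RatFunc k) z]
      exact Xc_map (fld (RatFunc k) z).val ρ _
    have h3 : Bc b ρ z = ((Bc b ρ (restr (RatFunc k) z) : fld (RatFunc k) z) : N) := by
      conv_lhs => rw [← restr_map (F := RatFunc k) z]
      exact Bc_map (fld (RatFunc k) z).val ρ _
    change SH p b r (perp ρ) z ∈ W
    rw [← h1]
    refine step (N := fld (RatFunc k) z) hb hHom (essFiniteType_fld z) hz.dim hz.restr hρ hρ0 W hG
      fun R _ _ _ _ y hy hv hXy hBy => hW R y hy hv (fun h => hXy ?_) (fun h => hBy ?_)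
    · rw [h2] at h
      exact Subtype.ext h
    · rw [h3] at h
      exact Subtype.ext h
  refine ⟨key1 _ le_sup_left fun R _ _ _ _ y hy hv _ _ => ?_, fun hX hB =>
    key1 _ le_sup_left fun R _ _ _ _ y hy hv hXy hBy => ?_⟩
  · exact Submodule.mem_sup_right (Submodule.subset_span
      ⟨R, inferInstance, inferInstance, inferInstance, inferInstance, y, hy, hv, rfl⟩)
  · exact Submodule.mem_sup_right (Submodule.subset_span
      ⟨R, inferInstance, inferInstance, inferInstance, inferInstance, y, hy,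
        ⟨hv, hXy hX, hBy hB⟩, rfl⟩)

end Pool.Agent.Helper84.KL
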