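import Pool.Agent.Helper84.KL.Sp2
import Pool.Agent.HC.Abh
import Pool.Agent.HC.RatExt

set_option autoImplicit false
set_option linter.unusedSectionVars false

/-!
Project KL (MP_0b9e0b_ag), module KL-8: reduction to vertical points.
-/

namespace Pool.Agent.Helper84.KL

open Pool.Agent.Helper16 Pool.Agent.HC Pool.Agent.Helper1.KL

section kappa

variable {k : Type} [Field k] {N : Type} [Field N] [Algebra k N]

/-- The homomorphism `k(t) → N(s)` with `t ↦ P(s)`. -/
theorem exists_kappa (P : Polynomial N) (hP : 0 < P.natDegree) :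
    ∃ κ : RatFunc k →+* RatFunc N,
      (∀ a : k, κ (RatFunc.C a) = RatFunc.C (algebraMap k N a)) ∧
      κ RatFunc.X = algebraMap (Polynomial N) (RatFunc N) P := by
  let φ : Polynomial k →+* RatFunc N :=
    (algebraMap (Polynomial N) (RatFunc N)).comp
      ((Polynomial.compRingHom P).comp (Polynomial.mapRingHom (algebraMap k N)))
  have hinj : Function.Injective φ := by
    refine (RatFunc.algebraMap_injective N).comp ?_
    rw [RingHom.coe_comp]
    refine Function.Injective.comp ?_ (Polynomial.map_injective _ (algebraMap k N).injective)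
    rw [injective_iff_map_eq_zero]
    intro f hf
    rcases Polynomial.comp_eq_zero_iff.1 hf with h1 | ⟨-, h1⟩
    · exact h1
    · rw [h1, Polynomial.natDegree_C] at hP
      exact absurd hP (lt_irrefl _)
  have hφ : nonZeroDivisors (Polynomial k) ≤ (nonZeroDivisors (RatFunc N)).comap φ := by
    intro f hf
    rw [Submonoid.mem_comap]
    rw [mem_nonZeroDivisors_iff_ne_zero] at hf ⊢
    rw [Ne, map_eq_zero_iff φ hinj]
    exact hf
  refine ⟨RatFunc.liftRingHom φ hφ, fun a => ?_, ?_⟩
  · rw [← RatFunc.algebraMap_C, RatFunc.liftRingHom_algebraMap, ← RatFunc.algebraMap_C]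
    change algebraMap (Polynomial N) (RatFunc N) ((Polynomial.map (algebraMap k N)
      (Polynomial.C a)).comp P) = _
    rw [Polynomial.map_C, Polynomial.C_comp]
  · rw [← RatFunc.algebraMap_X, RatFunc.liftRingHom_algebraMap]
    change algebraMap (Polynomial N) (RatFunc N) ((Polynomial.map (algebraMap k N)
      Polynomial.X).comp P) = _
    rw [Polynomial.map_X, Polynomial.X_comp]

theorem at0_C (a : N) : At0 (RatFunc.C a) a :=
  ⟨Polynomial.C a, 1, by simp, by simp, by simp⟩

theorem at0_poly (P : Polynomial N) (a : N) (h : P.eval 0 = a) :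
    At0 (algebraMap (Polynomial N) (RatFunc N) P) a :=
  ⟨P, 1, by simp, h, by simp⟩

end kappa

section alg

variable {k : Type} [Field k] {N : Type} [Field N] [Algebra k N] [Algebra (RatFunc k) N]
  [IsScalarTower k (RatFunc k) N] {r n : ℕ}

theorem isAlgebraic_of_not_vert (hN : Algebra.trdeg (RatFunc k) N = r)
    {z : Fin n ⊕ Fin n → Option N} (h : ¬ Vert k r z) :
    Algebra.IsAlgebraic (fld k (xpt z)) N := by
  unfold Vert at h
  rw [not_le] at h
  have h1 : ((r + 1 : ℕ) : Cardinal) ≤ Algebra.trdeg k (fld k (xpt z)) := by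
    rw [Nat.cast_add, Nat.cast_one, ← Cardinal.succ_natCast]
    exact Order.succ_le_of_lt h
  have h2 : Algebra.trdeg k N = ((r + 1 : ℕ) : Cardinal) := by
    rw [trdeg_base (k := k) (N := N), hN]
    push_cast
    rfl
  have h3 := trdeg_add_eq k (fld k (xpt z)) (A := N)
  rw [h2] at h3
  have h4 : Algebra.trdeg k (fld k (xpt z)) = ((r + 1 : ℕ) : Cardinal) :=
    le_antisymm (h3 ▸ le_self_add) h1
  rw [h4, add_comm] at h3
  have h5 : Algebra.trdeg (fld k (xpt z)) N = 0 := by
    have h6 : Algebra.trdeg (fld k (xpt z)) N + ((r + 1 : ℕ) : Cardinal) =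
        0 + ((r + 1 : ℕ) : Cardinal) := by rw [h3, zero_add]
    exact (Cardinal.add_nat_inj _).1 h6
  exact trdeg_eq_zero_iff.1 h5

theorem val_one_of_trivial {K M : Type} [Field K] [Field M] [Algebra K M] (ι : N →+* M)
    (v : Place K M) (L : IntermediateField k N) [Algebra.IsAlgebraic L N]
    (h : ∀ a ∈ L, a ≠ 0 → v.val (ι a) = 1) (a : N) (ha : a ≠ 0) : v.val (ι a) = 1 := by
  let _ : Algebra N M := ι.toAlgebra
  let w : Place L M :=
    { val := v.val
      surj := v.surj
      triv := fun a ha => h a a.2 fun h0 => ha (Subtype.ext h0) }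
  have h1 : IsAlgebraic L (algebraMap N M a) :=
    (Algebra.IsAlgebraic.isAlgebraic (R := L) a).algebraMap
  exact w.val_eq_one_of_algebraic h1 ((map_ne_zero (algebraMap N M)).2 ha)

end alg

section core

variable {k : Type} [Field k] {p : ℕ} [Fact p.Prime] [CharP k p] {n : ℕ} {b : Fin n → k} {r : ℕ}

theorem hom_cast {A B : Type} [Field A] [Field B] [CharP A p] [CharP B p] (f : A →+* B)
    (c : ZMod p) : f (c.cast : A) = (c.cast : B) := by
  have h1 : ∀ c : ZMod p, (c.cast : A) = ZMod.castHom (dvd_refl p) A c := fun c => rfl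
  have h2 : ∀ c : ZMod p, (c.cast : B) = ZMod.castHom (dvd_refl p) B c := fun c => rfl
  rw [h1, h2]
  exact RingHom.congr_fun (RingHom.ext_zmod (f.comp (ZMod.castHom (dvd_refl p) A))
    (ZMod.castHom (dvd_refl p) B)) c

variable {N : Type} [Field N] [Algebra k N] [Algebra (RatFunc k) N]
  [IsScalarTower k (RatFunc k) N] {M : Type} [Field M] [Algebra (RatFunc k) M]

theorem Xc_hom {N M : Type} [Field N] [Field M] [CharP N p] [CharP M p] (ι : N →+* M) {I : Finset (Fin n)} {z : Fin n ⊕ Fin n → Option N}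
    {z' : Fin n ⊕ Fin n → Option M} {ρ : Fin n → ZMod p} (hρ : ∀ i ∉ I, ρ i = 0)
    (hI : ∀ i ∈ I, z' (Sum.inl i) = some (ι (xc z i))) : Xc ρ z' = ι (Xc ρ z) := by
  unfold Xc
  rw [map_sum]
  refine Finset.sum_congr rfl fun i _ => ?_
  by_cases hi : i ∈ I
  · have h1 : xc z' i = ι (xc z i) := by
      unfold xc at hI ⊢
      rw [hI i hi, Option.getD_some]
    rw [h1, map_mul, hom_cast]
  · rw [hρ i hi, ZMod.cast_zero, ZMod.cast_zero, zero_mul, zero_mul, map_zero]

theorem Bc_hom (ι : N →+* M) (hιk : ∀ a : k, algebraMap (RatFunc k) M (RatFunc.C a) =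
    ι (algebraMap k N a)) {I : Finset (Fin n)} {z : Fin n ⊕ Fin n → Option N}
    {z' : Fin n ⊕ Fin n → Option M} {ρ : Fin n → ZMod p} (hρ : ∀ i ∉ I, ρ i = 0)
    (hI : ∀ i ∈ I, z' (Sum.inl i) = some (ι (xc z i))) : Bc b ρ z' = ι (Bc b ρ z) := by
  have := charP_alg (k := k) (p := p) N
  have := charP_alg (k := k) (p := p) M
  unfold Bc
  rw [map_sum]
  refine Finset.sum_congr rfl fun i _ => ?_
  by_cases hi : i ∈ I
  · have h1 : xc z' i = ι (xc z i) := by
      unfold xc at hI ⊢
      rw [hI i hi, Option.getD_some]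
    have h2 : algebraMap (RatFunc k) N (RatFunc.C (b i)) = algebraMap k N (b i) := by
      rw [IsScalarTower.algebraMap_apply k (RatFunc k) N]
      rfl
    rw [h1, map_mul, map_mul, hom_cast, map_inv₀, hιk, h2]
  · rw [hρ i hi, ZMod.cast_zero, ZMod.cast_zero, zero_mul, zero_mul, zero_mul, zero_mul, map_zero]

/-- The places of the homotopy: away from the point itself, the specialised points are vertical or
have fewer affine coordinates. -/
theorem core (hb : ∀ i, b i ≠ 0) {I : Finset (Fin n)} {z : Fin n ⊕ Fin n → Option N}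
    {ρ : Fin n → ZMod p} {W : Submodule ℚ (QX p b r)} (δ η : RatFunc N)
    (κ : RatFunc k →+* RatFunc N)
    (hκC : ∀ a : k, κ (RatFunc.C a) = RatFunc.C (algebraMap k N a))
    (hκX : κ RatFunc.X = RatFunc.C (algebraMap (RatFunc k) N RatFunc.X) + δ)
    (hN : Algebra.trdeg (RatFunc k) N = r) (hz : Good p b r I z) (hρ : ∀ i ∉ I, ρ i = 0)
    (hnv : ¬ Vert k r z) (j : RatFunc N →+* M) (hj : algebraMap (RatFunc k) M = j.comp κ)
    (z' : Fin n ⊕ Fin n → Option M) (v : Place (RatFunc k) M)
    (hI : ∀ i ∈ I, z' (Sum.inl i) = some (j (RatFunc.C (xc z i))))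
    (hinf : ∀ i ∉ I, z' (Sum.inl i) = none)
    (hec : ec ρ z' = j (RatFunc.C (ec ρ z) + η))
    (hord : v.ord (j RatFunc.X) ≠ 0) (hX : XV p b v.resField (spec v z'))
    (htr : Algebra.trdeg (RatFunc k) (fld (RatFunc k) (spec v z')) = r)
    (hpole : (∀ a : N, a ≠ 0 → v.val (j (RatFunc.C a)) = 1) → 1 < v.val (j RatFunc.X) →
      1 < v.val (j δ))
    (hzero : (∀ a : N, a ≠ 0 → v.val (j (RatFunc.C a)) = 1) → v.val (j RatFunc.X) < 1 →
      v.val (j δ) < 1 ∧ v.val (j η) < 1)
    (hG : GG p b r I.card ≤ W)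
    (hW : ∀ (R : Type) [Field R] [Algebra k R] [Algebra (RatFunc k) R]
      [IsScalarTower k (RatFunc k) R] (y : Fin n ⊕ Fin n → Option R), Good p b r I y →
      Vert k r y → (Xc ρ z = 0 → Xc ρ y = 0) → (Bc b ρ z = 0 → Bc b ρ y = 0) →
      SS p b r ρ y ∈ W) :
    SS p b r ρ (spec v z') ∈ W ∨ (0 < v.ord (j RatFunc.X) ∧
        key (RatFunc k) (red ρ (spec v z')) = key (RatFunc k) (red ρ z)) := by
  have hcN := charP_alg (k := k) (p := p) N
  have hcM := charP_alg (k := k) (p := p) M
  let ι : N →+* M := j.comp RatFunc.C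
  have hιk : ∀ a : k, algebraMap (RatFunc k) M (RatFunc.C a) = ι (algebraMap k N a) := by
    intro a
    rw [hj]
    change j (κ (RatFunc.C a)) = j (RatFunc.C (algebraMap k N a))
    rw [hκC]
  let _ : Algebra k M := ((algebraMap (RatFunc k) M).comp (algebraMap k (RatFunc k))).toAlgebra
  have : IsScalarTower k (RatFunc k) M := IsScalarTower.of_algebraMap_eq fun _ => rfl
  let _ : Algebra N M := ι.toAlgebra
  have hst : IsScalarTower k N M := IsScalarTower.of_algebraMap_eq fun a => hιk a
  have hI' : ∀ i ∈ I, z' (Sum.inl i) = some (ι (xc z i)) := hI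
  rcases good_or_GG v hinf hX htr with hgood | h
  swap
  · exact Or.inl (hG (h _))
  have hxi : ∀ i ∈ I, v.val (ι (xc z i)) = 1 ∧
      spec v z' (Sum.inl i) = some (v.res (ι (xc z i))) := by
    intro i hi
    obtain ⟨a, c, h1, -, h3, -, h5, -⟩ := spec_of_y b hb v hX (hgood.aff i hi)
    rw [hI' i hi] at h1
    have h6 : ι (xc z i) = a := Option.some_injective _ h1
    rw [h6]
    exact ⟨h3, h5⟩
  have hρX : ∀ i, ρ i ≠ 0 → i ∈ I := fun i hi => by
    by_contra h0
    exact hi (hρ i h0)
  have hXc : Xc ρ (spec v z') = v.res (ι (Xc ρ z)) := by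
    rw [(Xc_spec v ρ fun i hi => by rw [(hxi i (hρX i hi)).2]; simp).2, Xc_hom ι hρ hI']
  have hBc : Bc b ρ (spec v z') = v.res (ι (Bc b ρ z)) := by
    rw [(Bc_spec b v ρ fun i hi => ⟨_, (res_ne_zero_iff v
      (mem_ring_of_val_one v (hxi i (hρX i hi)).1)).2 (hxi i (hρX i hi)).1,
      (hxi i (hρX i hi)).2⟩).2, Bc_hom ι hιk hρ hI']
  have hecs : ec ρ z' ∈ v.ring ∧ ec ρ (spec v z') = v.res (ec ρ z') :=
    ec_spec v ρ fun i hi => hgood.aff i (hρX i hi)
  have hj0 : j RatFunc.X ≠ 0 := (map_ne_zero j).2 RatFunc.X_ne_zero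
  by_cases htriv : ∀ a ∈ fld k (xpt z), a ≠ 0 → v.val (ι a) = 1
  · right
    have halg := isAlgebraic_of_not_vert hN hnv
    have h1 := val_one_of_trivial ι v _ htriv
    have hδ : algebraMap (RatFunc k) M RatFunc.X =
        ι (algebraMap (RatFunc k) N RatFunc.X) + j δ := by
      rw [hj]
      change j (κ RatFunc.X) = _
      rw [hκX, map_add]
      rfl
    have hle : ∀ a : N, v.val (ι a) ≤ 1 := by
      intro a
      by_cases ha : a = 0
      · rw [ha, map_zero, map_zero]
        exact zero_le_one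
      · exact (h1 a ha).le
    have hlt : v.val (j RatFunc.X) < 1 := by
      by_contra hcon
      have h2 : 1 < v.val (j RatFunc.X) := by
        refine lt_of_le_of_ne (not_lt.1 hcon) fun h3 => hord ?_
        exact (v.ord_eq_zero_iff hj0).2 h3.symm
      have h3 := hpole h1 h2
      have h4 := v.triv RatFunc.X RatFunc.X_ne_zero
      rw [hδ, v.val.map_add_eq_of_lt_right ((hle _).trans_lt h3)] at h4
      exact absurd h4 h3.ne'
    obtain ⟨h5, h6⟩ := hzero h1 hlt
    refine ⟨(v.ord_pos_iff hj0).2 hlt, ?_⟩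
    have hf : v.val (tv k M - algebraMap N M (tv k N)) < 1 := by
      have h7 : tv k M - algebraMap N M (tv k N) = j δ := by
        change algebraMap (RatFunc k) M RatFunc.X - ι (algebraMap (RatFunc k) N RatFunc.X) = _
        rw [hδ]
        ring
      rw [h7]
      exact h5
    obtain ⟨φ, hφ⟩ := exists_resHom v h1 hf
    rw [← key_map φ (red ρ z)]
    congr 1
    funext l
    rcases l with i | i
    · change spec v z' (Sum.inl i) = Option.map φ (z (Sum.inl i))
      by_cases hi : i ∈ I
      · rw [(hxi i hi).2, (hz.of_mem hb hi).1, Option.map_some, (hφ _).2]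
        rfl
      · rw [(hz.inf i hi), spec_none v (hinf i hi), Option.map_none]
    · change some (ec ρ (spec v z')) = Option.map φ (some (ec ρ z))
      rw [Option.map_some, hecs.2, hec, (hφ _).2, map_add]
      congr 1
      have h8 : j (RatFunc.C (ec ρ z)) ∈ v.ring := hle _
      rw [v.res_add h8 h6.le, (v.res_eq_zero_iff (x := j η) h6.le).2 h6, add_zero]
      rfl
  · left
    push Not at htriv
    obtain ⟨a, ha, ha0, ha1⟩ := htriv
    refine hW v.resField (spec v z') hgood ?_ (fun h => ?_) (fun h => ?_)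
    · have hM : Algebra.trdeg k (fld k (xpt z)) ≤ (r : Cardinal) + 1 := by
        have h2 : Algebra.trdeg k N = (r : Cardinal) + 1 := by
          rw [trdeg_base (k := k) (N := N), hN]
        rw [← h2]
        exact trdeg_le_of_inj (fld k (xpt z)).val Subtype.val_injective
      have h3 := abh_adjoin v (M := fld k (xpt z)) hM
        ⟨⟨a, ha⟩, fun h => ha0 (congrArg Subtype.val h), ha1⟩
        (fun i : Fin n => (⟨xc z i, getD_mem_fld (xpt z) i⟩ : fld k (xpt z))) fun i => by
          change v.val (ι (xc z i)) ≤ 1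
          by_cases hi : i ∈ I
          · exact (hxi i hi).1.le
          · rw [(hz.of_notMem hb hi).2.2.1, map_zero, map_zero]
            exact zero_le_one
      have hfun : (fun j => (xpt (spec v z') j).getD 0) = fun i : Fin n =>
          v.res (algebraMap (fld k (xpt z)) M ⟨xc z i, getD_mem_fld (xpt z) i⟩) := by
        funext i
        change (spec v z' (Sum.inl i)).getD 0 = v.res (ι (xc z i))
        by_cases hi : i ∈ I
        · rw [(hxi i hi).2, Option.getD_some]
        · rw [spec_none v (hinf i hi), (hz.of_notMem hb hi).2.2.1, map_zero, v.res_zero]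
          rfl
      unfold Vert
      rw [fld_eq_range, hfun]
      exact h3
    · rw [hXc, h, map_zero, v.res_zero]
    · rw [hBc, h, map_zero, v.res_zero]

end core

end Pool.Agent.Helper84.KL
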