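import Pool.Agent.Helper1.KL.GeneralB
import Pool.Agent.HC.RatExt

set_option autoImplicit false
set_option linter.unusedSectionVars false

/-!
Project KL (MP_0b9e0b_ag): the coordinates of a specialised point of the product of Kloosterman
curves.
-/

namespace Pool.Agent.Helper84.KL

open Pool.Agent.Helper16 Pool.Agent.HC Pool.Agent.Helper1.KL

section gen

variable {F σ M : Type} [Field F] [Field M] [Algebra F M]

theorem spec_none (v : Place F M) {z : σ → Option M} {j : σ} (h : z j = none) :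
    spec v z j = none := by
  simp [spec, h]

theorem spec_some (v : Place F M) {z : σ → Option M} {j : σ} {a : M} (h : z j = some a)
    (ha : a ∈ v.ring) : spec v z j = some (v.res a) := by
  simp [spec, h, ha]

theorem spec_inf (v : Place F M) {z : σ → Option M} {j : σ} {a : M} (h : z j = some a)
    (ha : a ∉ v.ring) : spec v z j = none := by
  simp [spec, h, ha]

theorem of_spec_some (v : Place F M) {z : σ → Option M} {j : σ} {c : v.resField}
    (h : spec v z j = some c) : ∃ a, z j = some a ∧ a ∈ v.ring ∧ c = v.res a := by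
  cases hz : z j with
  | none => rw [spec_none v hz] at h; exact absurd h (by simp)
  | some a =>
    by_cases ha : a ∈ v.ring
    · rw [spec_some v hz ha] at h
      exact ⟨a, rfl, ha, (Option.some_injective _ h).symm⟩
    · rw [spec_inf v hz ha] at h
      exact absurd h (by simp)

theorem of_spec_ne (v : Place F M) {z : σ → Option M} {j : σ} (h : spec v z j ≠ none) :
    ∃ a, z j = some a ∧ a ∈ v.ring ∧ spec v z j = some (v.res a) := by
  obtain ⟨c, hc⟩ := Option.ne_none_iff_exists'.1 h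
  obtain ⟨a, h1, h2, h3⟩ := of_spec_some v hc
  exact ⟨a, h1, h2, h3 ▸ hc⟩

theorem res_sum (v : Place F M) {ι : Type} (s : Finset ι) (f : ι → M)
    (h : ∀ i ∈ s, f i ∈ v.ring) :
    ∑ i ∈ s, f i ∈ v.ring ∧ v.res (∑ i ∈ s, f i) = ∑ i ∈ s, v.res (f i) := by
  classical
  induction s using Finset.induction_on with
  | empty =>
    rw [Finset.sum_empty, Finset.sum_empty]
    exact ⟨zero_mem _, v.res_zero⟩
  | insert a s ha ih =>
    obtain ⟨h1, h2⟩ := ih fun i hi => h i (Finset.mem_insert_of_mem hi)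
    rw [Finset.sum_insert ha, Finset.sum_insert ha]
    have h3 := h a (Finset.mem_insert_self _ _)
    exact ⟨add_mem h3 h1, by rw [v.res_add h3 h1, h2]⟩

theorem res_inv (v : Place F M) {a : M} (ha : v.val a = 1) :
    a⁻¹ ∈ v.ring ∧ v.res a⁻¹ = (v.res a)⁻¹ := by
  have h0 : a ≠ 0 := by
    rintro rfl
    rw [map_zero] at ha
    exact zero_ne_one ha
  have h1 : v.val a⁻¹ = 1 := by rw [map_inv₀, ha, inv_one]
  have h2 : a ∈ v.ring := mem_ring_of_val_one v ha
  have h3 : a⁻¹ ∈ v.ring := mem_ring_of_val_one v h1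
  refine ⟨h3, eq_inv_of_mul_eq_one_right ?_⟩
  rw [← v.res_mul h2 h3, mul_inv_cancel₀ h0, v.res_one]

end gen

section pts

variable {k : Type} [Field k] {p : ℕ} {n : ℕ} (b : Fin n → k)
variable {M : Type} [Field M] [Algebra (RatFunc k) M]

theorem cast_mem_res [Fact p.Prime] [CharP k p] (v : Place (RatFunc k) M) (c : ZMod p) :
    (c.cast : M) ∈ v.ring ∧ v.res (c.cast : M) = (c.cast : v.resField) := by
  have : CharP M p := charP_of_injective_algebraMap (algebraMap (RatFunc k) M).injective p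
  have : CharP v.resField p :=
    charP_of_injective_algebraMap (algebraMap (RatFunc k) v.resField).injective p
  have h1 : (c.cast : M) = ((c.val : ℕ) : M) := by
    rw [ZMod.cast_eq_val]
  have h2 : (c.cast : v.resField) = ((c.val : ℕ) : v.resField) := by
    rw [ZMod.cast_eq_val]
  rw [h1, h2]
  have h3 : ((c.val : ℕ) : M) = algebraMap (RatFunc k) M ((c.val : ℕ) : RatFunc k) := by
    rw [map_natCast]
  rw [h3]
  refine ⟨v.ring.algebraMap_mem _, ?_⟩
  rw [v.res_algebraMap, map_natCast]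

/-- A finite `y` of the specialised point: the coordinates there. -/
theorem spec_of_y (hb : ∀ i, b i ≠ 0) (v : Place (RatFunc k) M) {z : Fin n ⊕ Fin n → Option M}
    (h : XV p b v.resField (spec v z)) {i : Fin n} (hi : spec v z (Sum.inr i) ≠ none) :
    ∃ a c, z (Sum.inl i) = some a ∧ z (Sum.inr i) = some c ∧ v.val a = 1 ∧ c ∈ v.ring ∧
      spec v z (Sum.inl i) = some (v.res a) ∧ spec v z (Sum.inr i) = some (v.res c) ∧
      v.res a ≠ 0 := by
  rcases h.cases hb i with ⟨h1, -⟩ | ⟨h1, h2, h3, -⟩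
  · exact absurd h1 hi
  · obtain ⟨a, h4, h5, h6⟩ := of_spec_some v h1
    obtain ⟨c, h7, h8, h9⟩ := of_spec_some v h2
    rw [h6] at h1 h3
    rw [h9] at h2
    exact ⟨a, c, h4, h7, (res_ne_zero_iff v h5).1 h3, h8, h1, h2, h3⟩

variable [Fact p.Prime] [CharP k p]

theorem Xc_spec (v : Place (RatFunc k) M) {z : Fin n ⊕ Fin n → Option M} (ρ : Fin n → ZMod p)
    (h : ∀ i, ρ i ≠ 0 → spec v z (Sum.inl i) ≠ none) :
    Xc ρ z ∈ v.ring ∧ Xc ρ (spec v z) = v.res (Xc ρ z) := by
  have h1 : ∀ i, (ρ i).cast * xc z i ∈ v.ring ∧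
      v.res ((ρ i).cast * xc z i) = (ρ i).cast * xc (spec v z) i := by
    intro i
    by_cases h0 : ρ i = 0
    · rw [h0, ZMod.cast_zero, ZMod.cast_zero, zero_mul, zero_mul]
      exact ⟨zero_mem _, v.res_zero⟩
    · obtain ⟨a, h2, h3, h4⟩ := of_spec_ne v (h i h0)
      have h5 : xc z i = a := by simp [xc, h2]
      have h6 : xc (spec v z) i = v.res a := by simp only [xc, h4, Option.getD_some]
      obtain ⟨h7, h8⟩ := cast_mem_res (M := M) v (ρ i)
      rw [h5, h6]
      exact ⟨mul_mem h7 h3, by rw [v.res_mul h7 h3, h8]⟩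
  obtain ⟨h2, h3⟩ := res_sum v Finset.univ (fun i => (ρ i).cast * xc z i) fun i _ => (h1 i).1
  refine ⟨h2, ?_⟩
  unfold Xc
  rw [h3]
  exact Finset.sum_congr rfl fun i _ => (h1 i).2.symm

theorem ec_spec (v : Place (RatFunc k) M) {z : Fin n ⊕ Fin n → Option M} (ρ : Fin n → ZMod p)
    (h : ∀ i, ρ i ≠ 0 → spec v z (Sum.inr i) ≠ none) :
    ec ρ z ∈ v.ring ∧ ec ρ (spec v z) = v.res (ec ρ z) := by
  have h1 : ∀ i, (ρ i).cast * yc z i ∈ v.ring ∧
      v.res ((ρ i).cast * yc z i) = (ρ i).cast * yc (spec v z) i := by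
    intro i
    by_cases h0 : ρ i = 0
    · rw [h0, ZMod.cast_zero, ZMod.cast_zero, zero_mul, zero_mul]
      exact ⟨zero_mem _, v.res_zero⟩
    · obtain ⟨a, h2, h3, h4⟩ := of_spec_ne v (h i h0)
      have h5 : yc z i = a := by simp [yc, h2]
      have h6 : yc (spec v z) i = v.res a := by simp only [yc, h4, Option.getD_some]
      obtain ⟨h7, h8⟩ := cast_mem_res (M := M) v (ρ i)
      rw [h5, h6]
      exact ⟨mul_mem h7 h3, by rw [v.res_mul h7 h3, h8]⟩
  obtain ⟨h2, h3⟩ := res_sum v Finset.univ (fun i => (ρ i).cast * yc z i) fun i _ => (h1 i).1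
  refine ⟨h2, ?_⟩
  unfold ec
  rw [h3]
  exact Finset.sum_congr rfl fun i _ => (h1 i).2.symm

theorem Bc_spec (v : Place (RatFunc k) M) {z : Fin n ⊕ Fin n → Option M} (ρ : Fin n → ZMod p)
    (h : ∀ i, ρ i ≠ 0 → ∃ a, a ≠ 0 ∧ spec v z (Sum.inl i) = some a) :
    Bc b ρ z ∈ v.ring ∧ Bc b ρ (spec v z) = v.res (Bc b ρ z) := by
  have h1 : ∀ i, (ρ i).cast * algebraMap (RatFunc k) M (RatFunc.C (b i)) * (xc z i)⁻¹ ∈ v.ring ∧
      v.res ((ρ i).cast * algebraMap (RatFunc k) M (RatFunc.C (b i)) * (xc z i)⁻¹) =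
        (ρ i).cast * algebraMap (RatFunc k) v.resField (RatFunc.C (b i)) *
          (xc (spec v z) i)⁻¹ := by
    intro i
    by_cases h0 : ρ i = 0
    · rw [h0, ZMod.cast_zero, ZMod.cast_zero, zero_mul, zero_mul, zero_mul, zero_mul]
      exact ⟨zero_mem _, v.res_zero⟩
    · obtain ⟨c, hc0, hc⟩ := h i h0
      obtain ⟨a, h2, h3, h4⟩ := of_spec_some v hc
      have h5 : xc z i = a := by simp [xc, h2]
      have h6 : xc (spec v z) i = v.res a := by simp only [xc, hc, Option.getD_some, h4]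
      obtain ⟨h7, h8⟩ := cast_mem_res (M := M) v (ρ i)
      have h9 : v.val a = 1 := by
        rw [h4] at hc0
        exact (res_ne_zero_iff v h3).1 hc0
      obtain ⟨h10, h11⟩ := res_inv v h9
      have h12 := v.ring.algebraMap_mem (RatFunc.C (b i) : RatFunc k)
      rw [h5, h6]
      refine ⟨mul_mem (mul_mem h7 h12) h10, ?_⟩
      rw [v.res_mul (mul_mem h7 h12) h10, v.res_mul h7 h12, h8, h11, v.res_algebraMap]
  obtain ⟨h2, h3⟩ := res_sum v Finset.univ _ fun i _ => (h1 i).1
  refine ⟨h2, ?_⟩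
  unfold Bc
  rw [h3]
  exact Finset.sum_congr rfl fun i _ => (h1 i).2.symm

end pts

end Pool.Agent.Helper84.KL
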