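import Pool.Agent.Helper84.KL.Sp

set_option autoImplicit false
set_option linter.unusedSectionVars false

/-!
Project KL (MP_0b9e0b_ag): a specialised point is good or has fewer affine coordinates.
-/

namespace Pool.Agent.Helper84.KL

open Pool.Agent.Helper16 Pool.Agent.HC Pool.Agent.Helper1.KL

variable {k : Type} [Field k] {p : ℕ} [Fact p.Prime] [CharP k p] {n : ℕ} {b : Fin n → k} {r : ℕ}
variable {N : Type} [Field N] [Algebra (RatFunc k) N]

theorem cast_eq_alg (c : ZMod p) : (c.cast : N) = algebraMap (RatFunc k) N (c.cast : RatFunc k) := by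
  have := charP_ratFunc (k := k) (p := p)
  have := charP_alg (k := k) (p := p) N
  have h1 : (c.cast : N) = ((c.val : ℕ) : N) := by rw [ZMod.cast_eq_val]
  have h2 : (c.cast : RatFunc k) = ((c.val : ℕ) : RatFunc k) := by rw [ZMod.cast_eq_val]
  rw [h1, h2, map_natCast]

theorem XV_tr {z : Fin n ⊕ Fin n → Option N} (hz : XV p b N z) (h : Fin n → ZMod p) :
    XV p b N (tr h z) := by
  have := charP_alg (k := k) (p := p) N
  intro i
  rcases hz i with ⟨h1, h2⟩ | ⟨a, c, h1, h2, h3⟩
  · left
    refine ⟨?_, h2⟩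
    change Option.map _ (z (Sum.inr i)) = none
    rw [h1]
    rfl
  · right
    refine ⟨a, c + (h i).cast, h1, ?_, ?_⟩
    · change Option.map _ (z (Sum.inr i)) = _
      rw [h2]
      rfl
    · rw [add_pow_char, cast_pow_p, ← h3]
      ring

theorem aff_tr (z : Fin n ⊕ Fin n → Option N) (h : Fin n → ZMod p) :
    Pool.Agent.Helper1.KL.aff (tr h z) = Pool.Agent.Helper1.KL.aff z := by
  classical
  ext i
  simp only [Pool.Agent.Helper1.KL.aff, Finset.mem_filter, Finset.mem_univ, true_and]
  change Option.map _ (z (Sum.inr i)) ≠ none ↔ _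
  rw [Ne, Option.map_eq_none_iff]

theorem fld_tr_le (z : Fin n ⊕ Fin n → Option N) (h : Fin n → ZMod p) :
    fld (RatFunc k) (tr h z) ≤ fld (RatFunc k) z := by
  unfold fld
  rw [IntermediateField.adjoin_le_iff]
  rintro a ⟨j, hj⟩
  rcases j with i | i
  · exact mem_fld (z := z) hj
  · have h1 : Option.map (fun c => c + (h i).cast) (z (Sum.inr i)) = some a := hj
    obtain ⟨c, h2, h3⟩ := Option.map_eq_some_iff.1 h1
    rw [← h3]
    refine add_mem (mem_fld (z := z) h2) ?_
    rw [cast_eq_alg (k := k)]
    exact (fld (RatFunc k) z).algebraMap_mem _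

theorem tr_neg_tr [CharP N p] (z : Fin n ⊕ Fin n → Option N) (h : Fin n → ZMod p) :
    tr (-h) (tr h z) = z := by
  funext j
  rcases j with i | i
  · rfl
  · change Option.map _ (Option.map _ (z (Sum.inr i))) = z (Sum.inr i)
    rw [Option.map_map]
    have h3 : ((fun c : N => c + ((-h) i).cast) ∘ fun c => c + (h i).cast) = id := by
      funext c
      change c + (h i).cast + ((-h) i).cast = c
      have h1 : ((-h) i).cast = -((h i).cast : N) := by
        rw [Pi.neg_apply]
        have h2 : ∀ d : ZMod p, (d.cast : N) = ZMod.castHom (dvd_refl p) N d := fun d => rfl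
        rw [h2, h2, map_neg]
      rw [h1]
      ring
    rw [h3, Option.map_id, id_eq]

theorem fld_tr (z : Fin n ⊕ Fin n → Option N) (h : Fin n → ZMod p) :
    fld (RatFunc k) (tr h z) = fld (RatFunc k) z := by
  refine le_antisymm (fld_tr_le z h) ?_
  have := charP_alg (k := k) (p := p) N
  have h1 := fld_tr_le (k := k) (tr h z) (-h)
  rwa [tr_neg_tr] at h1

/-- The sums over translates of points with fewer affine coordinates. -/
theorem SH_mem_GG {z : Fin n ⊕ Fin n → Option N} (hz : XV p b N z)
    (hr : Algebra.trdeg (RatFunc k) (fld (RatFunc k) z) = r) {m : ℕ}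
    (hm : (Pool.Agent.Helper1.KL.aff z).card < m) (H : Finset (Fin n → ZMod p)) :
    SH p b r H z ∈ GG p b r m := by
  unfold SH
  refine Submodule.sum_mem _ fun h _ => ?_
  refine cl_mem_GG (XV_tr hz h) ?_ ?_
  · rw [fld_tr]
    exact hr
  · rw [aff_tr]
    exact hm

variable {M : Type} [Field M] [Algebra (RatFunc k) M]

/-- A specialised point is good or has fewer affine coordinates. -/
theorem good_or_GG {I : Finset (Fin n)} (v : Place (RatFunc k) M)
    {z : Fin n ⊕ Fin n → Option M} (hinf : ∀ i ∉ I, z (Sum.inl i) = none)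
    (hX : XV p b v.resField (spec v z))
    (hr : Algebra.trdeg (RatFunc k) (fld (RatFunc k) (spec v z)) = r) :
    Good p b r I (spec v z) ∨ ∀ H : Finset (Fin n → ZMod p),
      SH p b r H (spec v z) ∈ GG p b r I.card := by
  classical
  have h0 : ∀ i ∉ I, spec v z (Sum.inr i) = none := by
    intro i hi
    have h1 := spec_none v (hinf i hi)
    rcases hX i with ⟨h2, -⟩ | ⟨a, d, h2, -, -⟩
    · exact h2
    · rw [h1] at h2; exact absurd h2 (by simp)
  by_cases hI : ∀ i ∈ I, spec v z (Sum.inr i) ≠ none
  · left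
    exact ⟨hX, hI, fun i hi => spec_none v (hinf i hi), hr⟩
  · right
    push Not at hI
    obtain ⟨i, hi, h1⟩ := hI
    intro H
    refine SH_mem_GG hX hr ?_ H
    refine Finset.card_lt_card ?_
    rw [Finset.ssubset_iff_of_subset]
    · refine ⟨i, hi, ?_⟩
      simp only [Pool.Agent.Helper1.KL.aff, Finset.mem_filter, Finset.mem_univ, true_and]
      exact fun h2 => h2 h1
    · intro l hl
      simp only [Pool.Agent.Helper1.KL.aff, Finset.mem_filter, Finset.mem_univ, true_and] at hl
      by_contra h2
      exact hl (h0 l h2)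

end Pool.Agent.Helper84.KL
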